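import Pool.Agent.R592.Pk.Ground

/-!
# Slalom and Katetov numbers of `J₀ ∩ J₁` and of `J₀ ⊕ J₁`

We force with the finite partial functions from `C × ω` to `ω`. The index set `C` contains indices
`a ξ` for `ξ < ω₁`, and `x b γ θ` for `b < 2`, `γ < ω₂` and `θ ∈ Θ`, where `Θ` enumerates the
`ω₁`-sequences of names of slaloms. The ideal `I` is generated by the generic sets `a ξ` and the
finite sets. The ideal `J b` is generated by the finite sets and by the sets
`{n : x b γ θ n ∈ s n}`, where `s` belongs to the `θ`-th sequence of slaloms, this sequence depends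
only on what is added before the stage `γ`, and finite unions of values of its slaloms are
different from `ω`.

Then `𝔰𝔩ₑ(⋆, J b) > ℵ₁`. On the other hand, given a function `x` there is `ξ` such that `x` does
not depend on `a ξ`, and if `p` forces that `{n : x n ∈ a ξ}` belongs to `J 0` and `J 1` then one
compares the extensions of `p` with those which are obtained by exchanging `a ξ` and its
complement outside of the part decided by `p`: the generators of `J 0` can be avoided at `n` by an
extension `q`, and those of `J 1` by the image of `q`, and one of the two puts `x n` into `a ξ`.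
So `𝔭_K(I, J 0 ∩ J 1) ≤ ℵ₁`.

The forcing language is that of `Pool.Agent.TH773.PSet.Defs`: a sentence is a set of conditions,
and `p ∈ φ` says that `p` forces `φ`.
-/

set_option autoImplicit false

open Cardinal Pool.Agent.R592.Pk
open Pool.Agent.R592.Sl (Ideal')

namespace Pool.Agent.Results.MP_8697f8_lc.AllFail

/-- It is consistent that all four statements (i)-(iv) fail, simultaneously and for the same
ideals.

(1) Some nonempty forcing forces the sentence `Model Y`, where `Y` is a set of size `ℵ₁`.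
(2) The meaning of the sentence `Model Y` (its value over the trivial forcing) is that there are
ideals `I`, `J₀`, `J₁` such that `𝔭_K(I, J₀ ∩ J₁) ≤ |Y|` and `𝔰𝔩ₑ(⋆, J₀)`, `𝔰𝔩ₑ(⋆, J₁)` are
greater than `|Y|`.
(3) So it implies that there are ideals `I`, `J₀`, `J₁` for which each of the four equalities
fails, for every bijection `e` used to move `J₀ ⊕ J₁` to `ω`. -/
theorem result :
    (∃ (Y P : Type) (_ : Preorder P), #Y = ℵ₁ ∧ Nonempty P ∧ ∀ p : P, p ∈ Model P Y) ∧
    (∀ (Y : Type) (p : Unit), p ∈ Model Unit Y ↔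
      ∃ I J₀ J₁, Ideal' I ∧ Ideal' J₀ ∧ Ideal' J₁ ∧
        pK I (J₀ ∩ J₁) ≤ ((#Y : Cardinal.{0}) : WithTop Cardinal.{0}) ∧
        ((#Y : Cardinal.{0}) : WithTop Cardinal.{0}) < slStar J₀ ∧
        ((#Y : Cardinal.{0}) : WithTop Cardinal.{0}) < slStar J₁) ∧
    (∀ (Y : Type) (p : Unit), p ∈ Model Unit Y → ∃ I J₀ J₁, Ideal' I ∧ Ideal' J₀ ∧ Ideal' J₁ ∧
      ∀ e : Bool × ℕ ≃ ℕ, Ideal' (J₀ ∩ J₁) ∧ Ideal' (Osum e J₀ J₁) ∧
        slE I (J₀ ∩ J₁) < slE I (Osum e J₀ J₁) ∧
        pK I (J₀ ∩ J₁) < pK I (Osum e J₀ J₁) ∧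
        slStar (J₀ ∩ J₁) < slStar (Osum e J₀ J₁) ∧
        pKStar (J₀ ∩ J₁) < pKStar (Osum e J₀ J₁)) := by
  refine ⟨exists_model, fun Y p => unit_model, fun Y p hp => ?_⟩
  obtain ⟨I, J₀, J₁, hI, h0, h1, h2, h3, h4⟩ := unit_model.1 hp
  exact ⟨I, J₀, J₁, hI, h0, h1, fun e => ⟨ideal_inter h0 h1, ideal_osum e h0 h1,
    all_fail e hI h2 h3 h4⟩⟩

end Pool.Agent.Results.MP_8697f8_lc.AllFail
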